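import Mathlib
import Pool.Agent.Helper47.P.Defs
import Pool.Agent.Helper28.MX.Jac
import Pool.Agent.Helper28.P.Jac
import Pool.Agent.Helper28.M.A

/-!
# Theorem M+, piece PL: all forms are linear in one factor

The ideal is the kernel of a map to a field of rational functions.
-/

set_option autoImplicit false

namespace Pool.Agent.Helper94.P

open MvPolynomial Pool.Agent.Helper47.M Pool.Agent.Helper47.P Pool.Agent.Helper28.M

variable {k l : ℕ} {N : Fin k → ℕ} {d : Fin l → Fin k → ℕ}

/-- The variables which are not solved for. -/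
abbrev Fv {N : Fin k → ℕ} (r : Fin k) (u : Fin l ↪ Fin (N r)) :=
  {v : Vr N // ∀ j, v ≠ ⟨r, u j⟩}

theorem card_Fv (r : Fin k) (u : Fin l ↪ Fin (N r)) [Fintype (Fv r u)] :
    Fintype.card (Fv r u) = ∑ r, N r - l := by
  classical
  have h1 : Fintype.card {v : Vr N // ¬ ∃ j, v = ⟨r, u j⟩} =
      Fintype.card (Vr N) - Fintype.card {v : Vr N // ∃ j, v = ⟨r, u j⟩} :=
    Fintype.card_subtype_compl _
  have h2 : Fintype.card {v : Vr N // ∃ j, v = ⟨r, u j⟩} = l := by
    have e : Fin l ≃ {v : Vr N // ∃ j, v = ⟨r, u j⟩} := by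
      refine Equiv.ofBijective (fun j => ⟨⟨r, u j⟩, j, rfl⟩) ⟨?_, ?_⟩
      · intro j j' h
        have h3 := congrArg Subtype.val h
        exact u.injective (eq_of_heq (Sigma.mk.inj_iff.1 h3).2)
      · rintro ⟨v, j, rfl⟩
        exact ⟨j, rfl⟩
    rw [← Fintype.card_congr e, Fintype.card_fin]
  have h3 : Fintype.card (Vr N) = ∑ r, N r := by
    rw [Fintype.card_sigma]
    simp
  rw [h2, h3] at h1
  rw [← h1]
  exact Fintype.card_congr (Equiv.subtypeEquivRight fun v => by simp)

section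

variable {S : Type*} [CommRing S]

theorem fv_lin {e : Fin k → ℕ} (a : Tn N e → S) (x : Pt N S) (r : Fin k) (h : e r = 1) :
    fv a x = ∑ b, x r b * dv a x r (Pi.single b 1) := by
  have h1 := Pool.Agent.Helper28.M.A.fv_one a x r h (x r)
  rw [Function.update_eq_self] at h1
  rw [h1]
  exact Pool.Agent.Helper28.M.A.dv_eq_sum a x r (x r)

theorem dv_indep {e : Fin k → ℕ} (a : Tn N e → S) (x x' : Pt N S) (r : Fin k) (h : e r = 1)
    (hx : ∀ j, j ≠ r → x j = x' j) (b : Fin (N r + 1) → S) : dv a x r b = dv a x' r b := by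
  rw [← Pool.Agent.Helper28.M.A.fv_one a x r h b, ← Pool.Agent.Helper28.M.A.fv_one a x' r h b]
  congr 1
  funext j
  by_cases hj : j = r
  · subst hj
    rw [Function.update_self, Function.update_self]
  · rw [Function.update_of_ne hj, Function.update_of_ne hj, hx j hj]

end

section

variable {K : Type} [Field K] (c : Tx N d → K) (r : Fin k) (u : Fin l ↪ Fin (N r))

/-- The inclusion of the polynomials in the free variables. -/
noncomputable def rh (K : Type) [Field K] {N : Fin k → ℕ} (r : Fin k) (u : Fin l ↪ Fin (N r)) :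
    MvPolynomial (Fv r u) K →ₐ[K] MvPolynomial (Vr N) K := rename Subtype.val

open Classical in
/-- The coordinates, with `0` for the variables which are solved for. -/
noncomputable def x0 (K : Type) [Field K] {N : Fin k → ℕ} (r : Fin k) (u : Fin l ↪ Fin (N r)) :
    Pt N (MvPolynomial (Fv r u) K) := fun r' =>
  Fin.cons 1 fun a => if h : ∀ j, (⟨r', a⟩ : Vr N) ≠ ⟨r, u j⟩ then X ⟨⟨r', a⟩, h⟩ else 0

/-- The coefficients of the linear forms. -/
noncomputable def Am (i : Fin l) (b : Fin (N r + 1)) : MvPolynomial (Fv r u) K :=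
  dF (fun e => C (c e)) (x0 K r u) r (Pi.single b 1) i

/-- The inhomogeneous terms. -/
noncomputable def rs (i : Fin l) : MvPolynomial (Fv r u) K :=
  Fm (fun e => C (c e)) (x0 K r u) i

/-- The matrix of the linear system. -/
noncomputable def Mt : Matrix (Fin l) (Fin l) (MvPolynomial (Fv r u) K) :=
  Matrix.of fun i j => Am c r u i (u j).succ

theorem rh_x0 (r' : Fin k) (b : Fin (N r' + 1)) (h : ∀ j, (⟨r', b⟩ : Σ r, Fin (N r + 1)) ≠
    ⟨r, (u j).succ⟩) : rh K r u (x0 K r u r' b) = ch K N r' b := by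
  refine Fin.cases (fun _ => ?_) (fun a h => ?_) b h
  · show rh K r u 1 = 1
    exact map_one _
  · have h1 : ∀ j, (⟨r', a⟩ : Vr N) ≠ ⟨r, u j⟩ := by
      intro j hj
      obtain ⟨h2, h3⟩ := Sigma.mk.inj_iff.1 hj
      subst h2
      exact h j (by rw [eq_of_heq h3])
    unfold x0 ch rh
    rw [Fin.cons_succ, Fin.cons_succ, dif_pos h1]
    exact rename_X _ _

theorem x0_dep (j : Fin l) : x0 K r u r (u j).succ = 0 := by
  unfold x0
  rw [Fin.cons_succ, dif_neg]
  intro h
  exact h j rfl

theorem ch_eq (b : Fin (N r + 1)) : ch K N r b = rh K r u (x0 K r u r b) +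
    ∑ j, if b = (u j).succ then X (⟨r, u j⟩ : Vr N) else 0 := by
  classical
  by_cases h : ∃ j, b = (u j).succ
  · obtain ⟨j, rfl⟩ := h
    rw [x0_dep, map_zero, zero_add, Finset.sum_eq_single j]
    · rw [if_pos rfl]
      rfl
    · intro j' _ hj'
      rw [if_neg]
      intro h
      exact hj' (u.injective (Fin.succ_injective _ h)).symm
    · intro h
      exact absurd (Finset.mem_univ _) h
  · push Not at h
    rw [rh_x0 r u r b, Finset.sum_eq_zero, add_zero]
    · intro j _
      rw [if_neg (h j)]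
    · intro j hj
      exact h j (eq_of_heq (Sigma.mk.inj_iff.1 hj).2)

variable {c r u}

theorem rh_Am (hd : ∀ i, d i r = 1) (i : Fin l) (b : Fin (N r + 1)) :
    rh K r u (Am c r u i b) = dF (fun e => C (c e)) (ch K N) r (Pi.single b 1) i := by
  unfold Am
  have h1 := Pool.Agent.Helper28.M.dF_map' (rh K r u).toRingHom
    (fun e => C (c e)) (x0 K r u) r (Pi.single b 1) i
  refine h1.trans ?_
  unfold dF
  have h2 : (fun i' => (rh K r u).toRingHom
      ((Pi.single b (1 : MvPolynomial (Fv r u) K) : Fin (N r + 1) → _) i')) = Pi.single b 1 := by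
    funext i'
    by_cases hi : i' = b
    · subst hi
      simp
    · rw [Pi.single_eq_of_ne hi, Pi.single_eq_of_ne hi, map_zero]
  rw [h2]
  have h3 : (fun m : Tn N (d i) => (rh K r u).toRingHom
      (C (c ⟨i, m⟩))) = fun m => C (c ⟨i, m⟩) := by
    funext m
    exact rename_C _ _
  rw [h3]
  refine dv_indep _ _ _ r (hd i) (fun j hj => ?_) _
  funext b'
  exact rh_x0 r u j b' (fun j' h => hj (Sigma.mk.inj_iff.1 h).1)

theorem rh_rs (hd : ∀ i, d i r = 1) (i : Fin l) :
    rh K r u (rs c r u i) = ∑ b, rh K r u (x0 K r u r b) *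
      dF (fun e => C (c e)) (ch K N) r (Pi.single b 1) i := by
  unfold rs Fm
  rw [fv_lin _ _ r (hd i), map_sum]
  refine Finset.sum_congr rfl fun b _ => ?_
  rw [map_mul]
  congr 1
  exact rh_Am hd i b

/-- The forms as linear polynomials. -/
theorem Fm_eq (hd : ∀ i, d i r = 1) (i : Fin l) :
    Fm (fun e => C (c e)) (ch K N) i = rh K r u (rs c r u i) +
      ∑ j, rh K r u (Mt c r u i j) * X (⟨r, u j⟩ : Vr N) := by
  classical
  rw [rh_rs hd]
  unfold Fm
  rw [fv_lin _ _ r (hd i)]
  have h1 : ∀ b, ch K N r b * dv (fun m => C (c ⟨i, m⟩)) (ch K N) r (Pi.single b 1) =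
      rh K r u (x0 K r u r b) * dF (fun e => C (c e)) (ch K N) r (Pi.single b 1) i +
      ∑ j, if b = (u j).succ then X (⟨r, u j⟩ : Vr N) *
        dF (fun e => C (c e)) (ch K N) r (Pi.single b 1) i else 0 := by
    intro b
    rw [ch_eq r u b, add_mul, Finset.sum_mul]
    congr 1
    refine Finset.sum_congr rfl fun j _ => ?_
    split_ifs
    · rfl
    · rw [zero_mul]
  rw [Finset.sum_congr rfl fun b _ => h1 b, Finset.sum_add_distrib]
  congr 1
  rw [Finset.sum_comm]
  refine Finset.sum_congr rfl fun j _ => ?_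
  rw [Finset.sum_eq_single (u j).succ]
  · rw [if_pos rfl, Mt, Matrix.of_apply, rh_Am hd, mul_comm]
  · intro b _ hb
    rw [if_neg hb]
  · intro h
    exact absurd (Finset.mem_univ _) h

theorem rh_det (hd : ∀ i, d i r = 1) : rh K r u (Mt c r u).det = Jd c r u := by
  unfold Jd
  rw [AlgHom.map_det]
  congr 1
  ext1 i j
  show rh K r u (Am c r u i (u j).succ) = pderiv (⟨r, u j⟩ : Vr N) (FR c i)
  rw [rh_Am hd, Pool.Agent.Helper28.M.pderiv_FR]
  rfl

variable (c r u)

/-- The field of rational functions in the free variables. -/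
abbrev Lf (K : Type) [Field K] {N : Fin k → ℕ} (r : Fin k) (u : Fin l ↪ Fin (N r)) : Type :=
  FractionRing (MvPolynomial (Fv r u) K)

/-- The linear system over the field. -/
noncomputable def ML : Matrix (Fin l) (Fin l) (Lf K r u) :=
  (Mt c r u).map (algebraMap (MvPolynomial (Fv r u) K) (Lf K r u))

/-- The solution of the linear system. -/
noncomputable def sol : Fin l → Lf K r u :=
  -((ML c r u)⁻¹.mulVec fun i => algebraMap _ _ (rs c r u i))

open Classical in
/-- The values of the variables. -/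
noncomputable def vl : Vr N → Lf K r u := fun v =>
  if h : ∀ j, v ≠ ⟨r, u j⟩ then algebraMap (MvPolynomial (Fv r u) K) (Lf K r u) (X ⟨v, h⟩)
  else sol c r u (Classical.choose (not_forall.1 h))

/-- The map to the field. -/
noncomputable def ph : MvPolynomial (Vr N) K →ₐ[K] Lf K r u := aeval (vl c r u)

theorem vl_free (v : Fv r u) :
    vl c r u v.1 = algebraMap (MvPolynomial (Fv r u) K) (Lf K r u) (X v) := by
  unfold vl
  rw [dif_pos v.2]

theorem vl_dep (j : Fin l) : vl c r u ⟨r, u j⟩ = sol c r u j := by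
  unfold vl
  have h : ¬ ∀ j', (⟨r, u j⟩ : Vr N) ≠ ⟨r, u j'⟩ := fun h => h j rfl
  rw [dif_neg h]
  congr 1
  have h1 := Classical.choose_spec (not_forall.1 h)
  rw [not_not] at h1
  exact (u.injective (eq_of_heq (Sigma.mk.inj_iff.1 h1).2)).symm

theorem ph_rh (p : MvPolynomial (Fv r u) K) :
    ph c r u (rh K r u p) = algebraMap (MvPolynomial (Fv r u) K) (Lf K r u) p := by
  have h1 : (ph c r u).comp (rh K r u) =
      IsScalarTower.toAlgHom K (MvPolynomial (Fv r u) K) (Lf K r u) := by
    refine MvPolynomial.algHom_ext fun v => ?_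
    show ph c r u (rename Subtype.val (X v)) = algebraMap _ _ (X v)
    rw [rename_X]
    unfold ph
    rw [aeval_X]
    exact vl_free c r u v
  exact DFunLike.congr_fun h1 p

variable {c r u}

theorem ph_Fm (hd : ∀ i, d i r = 1) (hdet : (Mt c r u).det ≠ 0) (i : Fin l) :
    ph c r u (Fm (fun e => C (c e)) (ch K N) i) = 0 := by
  rw [Fm_eq hd, map_add, ph_rh, map_sum]
  have h1 : ∀ j, ph c r u (rh K r u (Mt c r u i j) * X (⟨r, u j⟩ : Vr N)) =
      ML c r u i j * sol c r u j := by
    intro j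
    rw [map_mul, ph_rh]
    unfold ph
    rw [aeval_X, vl_dep]
    rfl
  rw [Finset.sum_congr rfl fun j _ => h1 j]
  have hu : IsUnit (ML c r u).det := by
    rw [isUnit_iff_ne_zero]
    have h2 : (ML c r u).det =
        algebraMap (MvPolynomial (Fv r u) K) (Lf K r u) (Mt c r u).det := by
      rw [RingHom.map_det]
      rfl
    rw [h2]
    intro h3
    exact hdet ((map_eq_zero_iff _ (IsFractionRing.injective _ _)).1 h3)
  have h2 : (ML c r u).mulVec (sol c r u) = -fun i => algebraMap _ _ (rs c r u i) := by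
    unfold sol
    rw [Matrix.mulVec_neg, Matrix.mulVec_mulVec, Matrix.mul_nonsing_inv _ hu, Matrix.one_mulVec]
  have h3 := congrFun h2 i
  simp only [Matrix.mulVec, dotProduct, Pi.neg_apply] at h3
  rw [h3]
  exact add_neg_cancel _

theorem idl_le (hd : ∀ i, d i r = 1) (hdet : (Mt c r u).det ≠ 0) :
    idl c ≤ RingHom.ker (ph c r u) := by
  unfold idl
  rw [Ideal.span_le]
  rintro _ ⟨i, rfl⟩
  exact ph_Fm hd hdet i

theorem Fm_mem (i : Fin l) : Fm (fun e => C (c e)) (ch K N) i ∈ idl c :=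
  Ideal.subset_span ⟨i, rfl⟩

/-- Cramer's rule. -/
theorem cramer (hd : ∀ i, d i r = 1) (j : Fin l) :
    Jd c r u * X (⟨r, u j⟩ : Vr N) -
      rh K r u (-∑ i, (Mt c r u).adjugate j i * rs c r u i) ∈ idl c := by
  have h1 : ∑ i, rh K r u ((Mt c r u).adjugate j i) * Fm (fun e => C (c e)) (ch K N) i ∈
      idl c := Ideal.sum_mem _ fun i _ => Ideal.mul_mem_left _ _ (Fm_mem i)
  have h2 : ∑ i, rh K r u ((Mt c r u).adjugate j i) * Fm (fun e => C (c e)) (ch K N) i =
      Jd c r u * X (⟨r, u j⟩ : Vr N) -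
        rh K r u (-∑ i, (Mt c r u).adjugate j i * rs c r u i) := by
    have h3 : ∀ i, rh K r u ((Mt c r u).adjugate j i) * Fm (fun e => C (c e)) (ch K N) i =
        rh K r u ((Mt c r u).adjugate j i * rs c r u i) +
        ∑ j', rh K r u ((Mt c r u).adjugate j i * Mt c r u i j') * X (⟨r, u j'⟩ : Vr N) := by
      intro i
      rw [Fm_eq hd, mul_add, Finset.mul_sum, map_mul]
      congr 1
      refine Finset.sum_congr rfl fun j' _ => ?_
      rw [map_mul, mul_assoc]
    rw [Finset.sum_congr rfl fun i _ => h3 i, Finset.sum_add_distrib, Finset.sum_comm]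
    have h4 : ∀ j', ∑ i, rh K r u ((Mt c r u).adjugate j i * Mt c r u i j') *
        X (⟨r, u j'⟩ : Vr N) = if j = j' then Jd c r u * X (⟨r, u j'⟩ : Vr N) else 0 := by
      intro j'
      rw [← Finset.sum_mul, ← map_sum]
      have h5 : ∑ i, (Mt c r u).adjugate j i * Mt c r u i j' =
          ((Mt c r u).adjugate * Mt c r u) j j' := by
        rw [Matrix.mul_apply]
      rw [h5, Matrix.adjugate_mul, Matrix.smul_apply, Matrix.one_apply, smul_eq_mul]
      split_ifs with h
      · rw [mul_one, rh_det hd]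
      · rw [mul_zero, map_zero, zero_mul]
    rw [Finset.sum_congr rfl fun j' _ => h4 j', Finset.sum_ite_eq, if_pos (Finset.mem_univ _),
      map_neg, map_sum]
    ring
  rw [← h2]
  exact h1

/-- Every polynomial is a fraction modulo the ideal. -/
theorem red (hd : ∀ i, d i r = 1) (G : MvPolynomial (Vr N) K) :
    ∃ (m : ℕ) (H : MvPolynomial (Fv r u) K), Jd c r u ^ m * G - rh K r u H ∈ idl c := by
  classical
  induction G using MvPolynomial.induction_on with
  | C a =>
    refine ⟨0, C a, ?_⟩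
    have h1 : rh K r u (C a) = C a := rename_C _ _
    rw [h1, pow_zero, one_mul, sub_self]
    exact Ideal.zero_mem _
  | add G G' ih ih' =>
    obtain ⟨m, H, h⟩ := ih
    obtain ⟨m', H', h'⟩ := ih'
    refine ⟨m + m', (Mt c r u).det ^ m' * H + (Mt c r u).det ^ m * H', ?_⟩
    rw [map_add, map_mul, map_mul, map_pow, map_pow, rh_det hd]
    have h1 : Jd c r u ^ (m + m') * (G + G') - (Jd c r u ^ m' * rh K r u H +
        Jd c r u ^ m * rh K r u H') = Jd c r u ^ m' * (Jd c r u ^ m * G - rh K r u H) +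
        Jd c r u ^ m * (Jd c r u ^ m' * G' - rh K r u H') := by
      rw [pow_add]
      ring
    rw [h1]
    exact Ideal.add_mem _ (Ideal.mul_mem_left _ _ h) (Ideal.mul_mem_left _ _ h')
  | mul_X G v ih =>
    obtain ⟨m, H, h⟩ := ih
    by_cases hv : ∀ j, v ≠ ⟨r, u j⟩
    · refine ⟨m, H * X ⟨v, hv⟩, ?_⟩
      have h1 : rh K r u (X ⟨v, hv⟩) = X v := rename_X _ _
      rw [map_mul, h1, ← mul_assoc, ← sub_mul]
      exact Ideal.mul_mem_right _ _ h
    · push Not at hv
      obtain ⟨j, rfl⟩ := hv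
      refine ⟨m + 1, H * (-∑ i, (Mt c r u).adjugate j i * rs c r u i), ?_⟩
      rw [map_mul]
      have h1 := cramer (c := c) (u := u) hd j
      set Y := rh K r u (-∑ i, (Mt c r u).adjugate j i * rs c r u i) with hY
      have h2 : Jd c r u ^ (m + 1) * (G * X (⟨r, u j⟩ : Vr N)) - rh K r u H * Y =
          (Jd c r u ^ m * G - rh K r u H) * (Jd c r u * X (⟨r, u j⟩ : Vr N)) +
          rh K r u H * (Jd c r u * X (⟨r, u j⟩ : Vr N) - Y) := by
        rw [pow_succ]
        ring
      rw [h2]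
      exact Ideal.add_mem _ (Ideal.mul_mem_right _ _ h) (Ideal.mul_mem_left _ _ h1)

/-- The ideal is the kernel. -/
theorem ker_eq (hd : ∀ i, d i r = 1) (hdet : (Mt c r u).det ≠ 0)
    (hJ : ∀ (m : ℕ) (G : MvPolynomial (Vr N) K), Jd c r u ^ m * G ∈ idl c → G ∈ idl c) :
    RingHom.ker (ph c r u) = idl c := by
  refine le_antisymm ?_ (idl_le hd hdet)
  intro G hG
  obtain ⟨m, H, h⟩ := red (c := c) (u := u) hd G
  have h1 := idl_le hd hdet h
  rw [RingHom.mem_ker] at h1 hG
  rw [map_sub, map_mul, hG, mul_zero, zero_sub, neg_eq_zero, ph_rh] at h1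
  have h2 : H = 0 := (map_eq_zero_iff _ (IsFractionRing.injective _ _)).1 h1
  rw [h2, map_zero, sub_zero] at h
  exact hJ m G h

end

end Pool.Agent.Helper94.P
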