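import Mathlib
import Pool.Agent.Helper94.P.Lin
import Pool.Agent.Helper24.P.Full
import Pool.Agent.Helper45.MX.TR
import Pool.Agent.Helper47.M.Pd

/-!
# Theorem M+, piece PL: all forms are linear in one factor (final form)
-/

set_option autoImplicit false

namespace Pool.Agent.Helper94.P

open MvPolynomial AlgebraicGeometry CategoryTheory Pool.Agent Pool.Agent.Helper15
open Pool.Agent.Helper47.M Pool.Agent.Helper47.P Pool.Agent.Helper28.M

variable {k l : ℕ} {N : Fin k → ℕ} {d : Fin l → Fin k → ℕ}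

section

variable {K : Type} [Field K] {c : Tx N d → K} {r : Fin k} {u : Fin l ↪ Fin (N r)}

/-- The free variables in the field. -/
noncomputable def fx (K : Type) [Field K] {N : Fin k → ℕ} (r : Fin k) (u : Fin l ↪ Fin (N r)) :
    Fv r u → Lf K r u := fun v => algebraMap (MvPolynomial (Fv r u) K) (Lf K r u) (X v)

theorem fx_ind : AlgebraicIndependent K (fx K r u) :=
  (MvPolynomial.algebraicIndependent_X (Fv r u) K).map'
    (f := IsScalarTower.toAlgHom K (MvPolynomial (Fv r u) K) (Lf K r u))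
    (IsFractionRing.injective _ _)

theorem aeval_fx (p : MvPolynomial (Fv r u) K) :
    aeval (fx K r u) p = algebraMap (MvPolynomial (Fv r u) K) (Lf K r u) p := by
  have h1 : aeval (fx K r u) =
      IsScalarTower.toAlgHom K (MvPolynomial (Fv r u) K) (Lf K r u) := by
    refine MvPolynomial.algHom_ext fun v => ?_
    rw [aeval_X]
    rfl
  exact DFunLike.congr_fun h1 p

theorem fx_top : IntermediateField.adjoin K (Set.range (fx K r u)) = ⊤ := by
  rw [eq_top_iff]
  intro y _
  obtain ⟨a, b, -, rfl⟩ := IsFractionRing.div_surjective (A := MvPolynomial (Fv r u) K) y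
  have h1 : ∀ p : MvPolynomial (Fv r u) K,
      algebraMap (MvPolynomial (Fv r u) K) (Lf K r u) p ∈
        IntermediateField.adjoin K (Set.range (fx K r u)) := by
    intro p
    rw [← aeval_fx]
    refine IntermediateField.algebra_adjoin_le_adjoin K _ ?_
    rw [Algebra.adjoin_range_eq_range_aeval]
    exact ⟨p, rfl⟩
  exact div_mem (h1 a) (h1 b)

theorem trdeg_Lf : Algebra.trdeg K (Lf K r u) = Cardinal.mk (Fv r u) := by
  have h1 := _root_.trdeg_add_eq K (MvPolynomial (Fv r u) K) (A := Lf K r u)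
  rw [MvPolynomial.trdeg_of_isDomain, Cardinal.lift_id] at h1
  have h2 : Algebra.trdeg (MvPolynomial (Fv r u) K) (Lf K r u) = 0 := by
    have : Algebra.IsAlgebraic (MvPolynomial (Fv r u) K) (Lf K r u) :=
      IsLocalization.isAlgebraic _ (nonZeroDivisors (MvPolynomial (Fv r u) K))
    exact _root_.trdeg_eq_zero
  rw [h2, add_zero] at h1
  exact h1.symm

/-- The embedding of the residue ring. -/
noncomputable def qf (h : RingHom.ker (ph c r u) = idl c) :
    (MvPolynomial (Vr N) K ⧸ idl c) →ₐ[K] Lf K r u :=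
  Ideal.Quotient.liftₐ (idl c) (ph c r u) fun a ha => by
    rw [← h] at ha
    exact ha

theorem qf_inj (h : RingHom.ker (ph c r u) = idl c) : Function.Injective (qf h) := by
  rw [injective_iff_map_eq_zero]
  intro a ha
  obtain ⟨a, rfl⟩ := Ideal.Quotient.mk_surjective a
  rw [Ideal.Quotient.eq_zero_iff_mem, ← h]
  exact ha

theorem trdeg_quot (h : RingHom.ker (ph c r u) = idl c) :
    Algebra.trdeg K (MvPolynomial (Vr N) K ⧸ idl c) = (∑ r, N r - l : ℕ) := by
  classical
  have h0 : Cardinal.mk (Fv r u) = (∑ r, N r - l : ℕ) := by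
    rw [Cardinal.mk_fintype, card_Fv]
  refine le_antisymm ?_ ?_
  · rw [← h0, ← trdeg_Lf (K := K) (r := r) (u := u)]
    exact _root_.trdeg_le_of_injective (qf h) (qf_inj h)
  · rw [← h0]
    have h1 : AlgebraicIndependent K (fun v : Fv r u =>
        (Ideal.Quotient.mk (idl c) (X v.1) : MvPolynomial (Vr N) K ⧸ idl c)) := by
      refine AlgebraicIndependent.of_comp (qf h) ?_
      have h2 : (qf h) ∘ (fun v : Fv r u =>
          (Ideal.Quotient.mk (idl c) (X v.1) : MvPolynomial (Vr N) K ⧸ idl c)) = fx K r u := by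
        funext v
        show ph c r u (X v.1) = fx K r u v
        unfold ph
        rw [aeval_X]
        exact vl_free c r u v
      rw [h2]
      exact fx_ind
    exact h1.cardinalMk_le_trdeg

/-- The ideal is a good prime. -/
theorem isDom_of (h : RingHom.ker (ph c r u) = idl c)
    (hel : ∀ r', r' ≠ r → ∀ Φ ∈ idl c, (∀ v ∈ Φ.vars, v.1 ≠ r') → Φ = 0) :
    IsDom (idl c) (∑ r, N r - l) (idl c) where
  prime := by
    rw [← h]
    exact RingHom.ker_isPrime _
  le := le_rfl
  elim := by
    intro r' Φ hΦ hv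
    by_cases hr : r' = r
    · subst hr
      obtain ⟨q, rfl⟩ := exists_rename_eq_of_vars_subset_range Φ
        (Subtype.val : Fv r' u → Vr N) Subtype.val_injective (by
          intro v hv'
          refine ⟨⟨v, ?_⟩, rfl⟩
          rintro j rfl
          exact hv _ hv' rfl)
      rw [← h, RingHom.mem_ker] at hΦ
      have h1 := ph_rh c r' u q
      unfold rh at h1
      rw [hΦ] at h1
      have h2 : q = 0 := (map_eq_zero_iff _ (IsFractionRing.injective _ _)).1 h1.symm
      rw [h2, map_zero]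
    · exact hel r' hr Φ hΦ hv
  trdeg := trdeg_quot h

/-- Potential density. -/
theorem good_of [NumberField K] (h : RingHom.ker (ph c r u) = idl c)
    (hI : IsDom (idl c) (∑ r, N r - l) (idl c)) : Good (idl c) (∑ r, N r - l) := by
  refine ⟨⟨_, hI⟩, fun P hP X s _ hX => ?_⟩
  obtain rfl : idl c = P :=
    Pool.Agent.Helper45.MX.eq_of_le_of_trdeg hI.prime hP.prime hP.le hI.trdeg hP.trdeg
  refine PotentiallyDense.of_birational K X _ s _ hX ?_
  exact pd_rational (fx K r u) fx_ind fx_top (MvPolynomial (Vr N) K ⧸ idl c) (qf h) (qf_inj h)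

end

/-- For general coefficients the determinant of the linear system does not vanish. -/
theorem exists_det (hd : ∀ i r, 0 < d i r) (r : Fin k) (u : Fin l ↪ Fin (N r)) :
    ∃ Δ : MvPolynomial (Tx N d) ℚ, Δ ≠ 0 ∧ ∀ (K : Type) [Field K] [CharZero K] (c : Tx N d → K),
      aeval c Δ ≠ 0 → Jd c r u ≠ 0 := by
  classical
  obtain ⟨c1, φ1, -, h2⟩ := Pool.Agent.Helper28.MX.exists_point hd r u u.injective
  have hne : Pool.Agent.Helper28.MX.JS (gc (N := N) (d := d)) r u ≠ 0 := by
    intro h
    apply h2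
    have h3 := Pool.Agent.Helper28.MX.map_JS
      ((aeval c1 : MvPolynomial (Tx N d) ℚ →ₐ[ℚ] ℚ) : MvPolynomial (Tx N d) ℚ →+* ℚ)
      (gc (N := N) (d := d)) r u
    have e1 : (fun e => ((aeval c1 : MvPolynomial (Tx N d) ℚ →ₐ[ℚ] ℚ) :
        MvPolynomial (Tx N d) ℚ →+* ℚ) (gc e)) = c1 := by
      funext e
      exact aeval_X c1 e
    rw [h, map_zero, e1] at h3
    rw [← h3, map_zero]
  obtain ⟨m, hm⟩ := MvPolynomial.ne_zero_iff.1 hne
  refine ⟨coeff m (Pool.Agent.Helper28.MX.JS (gc (N := N) (d := d)) r u), hm, ?_⟩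
  intro K _ _ c hc h
  apply hc
  have h3 := Pool.Agent.Helper28.MX.map_JS
    ((aeval c : MvPolynomial (Tx N d) ℚ →ₐ[ℚ] K) : MvPolynomial (Tx N d) ℚ →+* K)
    (gc (N := N) (d := d)) r u
  have e1 : (fun e => ((aeval c : MvPolynomial (Tx N d) ℚ →ₐ[ℚ] K) :
      MvPolynomial (Tx N d) ℚ →+* K) (gc e)) = c := by
    funext e
    exact aeval_X c e
  rw [e1] at h3
  have h4 : Pool.Agent.Helper28.MX.JS c r u = Jd c r u := rfl
  rw [h4, h] at h3
  have h5 := congrArg (coeff m) h3
  rw [coeff_map, coeff_zero] at h5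
  exact h5

/-- **The linear case.** -/
theorem linear_case (hd : ∀ i r, 0 < d i r) (hN : ∀ r, l ≤ N r) (r : Fin k)
    (hr : ∑ i, d i r = l) :
    ∃ Δ : MvPolynomial (Tx N d) ℚ, Δ ≠ 0 ∧ ∀ (K : Type) [Field K] [NumberField K]
      (c : Tx N d → K), aeval c Δ ≠ 0 →
        IsDom (idl c) (∑ r, N r - l) (idl c) ∧ Good (idl c) (∑ r, N r - l) := by
  classical
  -- all degrees in the factor are one
  have h1 : ∀ i, d i r = 1 := by
    have h2 : ∑ i, (d i r - 1) = 0 := by
      have h3 : ∑ i, (d i r - 1) + ∑ _i : Fin l, 1 = ∑ i, d i r := by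
        rw [← Finset.sum_add_distrib]
        refine Finset.sum_congr rfl fun i _ => ?_
        have := hd i r
        omega
      simp only [Finset.sum_const, Finset.card_univ, Fintype.card_fin, smul_eq_mul,
        mul_one] at h3
      omega
    intro i
    have h3 := Finset.sum_eq_zero_iff.1 h2 i (Finset.mem_univ i)
    have := hd i r
    omega
  let u : ∀ r, Fin l ↪ Fin (N r) := fun r => ⟨Fin.castLE (hN r), Fin.castLE_injective _⟩
  choose Δ hΔ H using fun r => Pool.Agent.Helper28.P.jac_nzd (N := N) hd r (u r)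
  obtain ⟨Δ0, hΔ0, H0⟩ := exists_det (N := N) hd r (u r)
  refine ⟨Δ0 * ∏ r, Δ r, mul_ne_zero hΔ0 (Finset.prod_ne_zero_iff.2 fun r _ => hΔ r), ?_⟩
  intro K _ _ c hc
  rw [map_mul, map_prod] at hc
  have hc0 := H0 K c (left_ne_zero_of_mul hc)
  have hJ := fun r' => H r' K c (Finset.prod_ne_zero_iff.1 (right_ne_zero_of_mul hc) r'
    (Finset.mem_univ r'))
  have hdet : (Mt c r (u r)).det ≠ 0 := by
    intro h
    apply hc0
    rw [← rh_det h1, h, map_zero]
  have hk := ker_eq h1 hdet (hJ r)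
  have hI : IsDom (idl c) (∑ r, N r - l) (idl c) := by
    refine isDom_of hk fun r' _ Φ hΦ hv => ?_
    by_contra hne
    have h3 : (1 : MvPolynomial (Vr N) K) ∈ idl c := by
      refine Pool.Agent.Helper24.P.nzd_of_jac c r' (u r') (hJ r') Φ 1 hne ?_ ?_
      · rintro v hv' j rfl
        exact hv _ hv' rfl
      · rwa [mul_one]
    rw [← hk, RingHom.mem_ker, map_one] at h3
    exact one_ne_zero h3
  exact ⟨hI, good_of hk hI⟩

end Pool.Agent.Helper94.P
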